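import Pool.Agent.H7.Lag.Final

set_option autoImplicit false

namespace Pool.Agent.Results.MP_58c014_an.Monotone

open Pool.Agent.H7.Lag Set MeasureTheory

/-- For every `n ≥ 2` (and also for `n = 1`): the integrals defining `F(t)` and `G(t)` converge for
all `t ≥ 0`, the function `t ↦ F(t) G(t)` is strictly decreasing on `[0,∞)`, and
`H(t) = 2 (F G)'(t) < 0` for all `t > 0`. -/
theorem result (n : ℕ) (hn : 1 ≤ n) :
    (∀ t : ℝ, 0 ≤ t →
      IntegrableOn (fun x : Fin n → ℝ => P n x * ∏ j, (x j + t) ^ (-(1 / 2) : ℝ)) {x | ∀ j, 0 ≤ x j} ∧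
      IntegrableOn (fun x : Fin n → ℝ => P n x * ∏ j, (x j + t) ^ (1 / 2 : ℝ)) {x | ∀ j, 0 ≤ x j}) ∧
    StrictAntiOn (fun t => F n t * G n t) (Ici 0) ∧
    ∀ t : ℝ, 0 < t → DifferentiableAt ℝ (fun t => F n t * G n t) t ∧
      2 * deriv (fun t => F n t * G n t) t < 0 := by
  refine ⟨fun t ht => ⟨?_, ?_⟩, main hn⟩
  · exact (integrableOn_congr_set_ae (orthant_ae n)).2 (int_neg ht)
  · exact (integrableOn_congr_set_ae (orthant_ae n)).2 (int_half ht)

end Pool.Agent.Results.MP_58c014_an.Monotone
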